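import Mathlib

/-!
# Definitions for S09463 (MP_728309_co)

Dual side: multigraphs `MG Φ ι` with edge sets `Finset ι`.
Primal side: simple graphs with labels `lab : Sym2 V → ℕ` (0 = contracted, 1 = real, 2 = fat).
-/

set_option autoImplicit false

open scoped Classical

noncomputable section

namespace Pool.Agent.Bond

/-! ## Multigraphs -/

/-- A multigraph with vertex type `Φ` and edge type `ι`; the current edge set is always an extra `Finset ι`. -/
structure MG (Φ ι : Type) where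
  s : ι → Φ
  t : ι → Φ

namespace MG

variable {Φ Ψ ι : Type}

/-- The edge `e` joins `u` and `v`. -/
def Joins (G : MG Φ ι) (e : ι) (u v : Φ) : Prop :=
  (G.s e = u ∧ G.t e = v) ∨ (G.s e = v ∧ G.t e = u)

/-- The edge `e` is incident with `v`. -/
def Inc (G : MG Φ ι) (e : ι) (v : Φ) : Prop := G.s e = v ∨ G.t e = v

/-- Vertices met by an edge set. -/
def vs (G : MG Φ ι) (B : Finset ι) : Set Φ := {v | ∃ e ∈ B, G.Inc e v}

/-- Degree of `v` in the edge set `B` (a loop counts twice). -/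
def deg (G : MG Φ ι) (B : Finset ι) (v : Φ) : ℕ :=
  (B.filter (fun e => G.s e = v)).card + (B.filter (fun e => G.t e = v)).card

/-- Even edge sets. -/
def EvenSet (G : MG Φ ι) (Z : Finset ι) : Prop := ∀ v, Even (G.deg Z v)

def Link (G : MG Φ ι) (B : Finset ι) (u v : Φ) : Prop := ∃ e ∈ B, G.Joins e u v

/-- `u` and `v` are connected by edges of `B`. -/
def Conn (G : MG Φ ι) (B : Finset ι) (u v : Φ) : Prop := Relation.ReflTransGen (G.Link B) u v

/-- The edges of `B` not incident with `w`. -/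
def avoid (G : MG Φ ι) (B : Finset ι) (w : Φ) : Finset ι := B.filter (fun e => ¬ G.Inc e w)

/-- Two-connected edge sets. -/
def TC (G : MG Φ ι) (B : Finset ι) : Prop :=
  2 ≤ B.card ∧ (∀ e ∈ B, G.s e ≠ G.t e) ∧
    ∀ w u v, u ∈ G.vs B → v ∈ G.vs B → u ≠ w → v ≠ w → G.Conn (G.avoid B w) u v

/-- Paths as edge sets; all vertices different. -/
inductive IsPath (G : MG Φ ι) : Finset ι → Φ → Φ → Prop
  | nil (u : Φ) : IsPath G ∅ u u
  | cons {e : ι} {W : Finset ι} {u w v : Φ} : G.Joins e u w → u ≠ w → u ∉ G.vs W → u ≠ v →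
      IsPath G W w v → IsPath G (insert e W) u v

/-- Circuits (at least two edges, no loops). -/
def IsCirc (G : MG Φ ι) (C : Finset ι) : Prop :=
  ∃ e W u v, C = insert e W ∧ e ∉ W ∧ G.Joins e u v ∧ u ≠ v ∧ G.IsPath W u v

/-- `p(v)`: fat edges (those in `F`) count twice. -/
def pdeg (G : MG Φ ι) (E F : Finset ι) (v : Φ) : ℕ := G.deg E v + G.deg (E ∩ F) v

/-- Good circuits: deleting the real edges of `C` leaves a two-connected edge set. -/
def GoodC (G : MG Φ ι) (E F C : Finset ι) : Prop :=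
  G.IsCirc C ∧ C ⊆ E ∧ G.TC (E \ (C \ F))

/-- Cuts. -/
def cutSet (H : MG Ψ ι) (E : Finset ι) (g : Ψ → Prop) : Finset ι :=
  E.filter (fun e => ¬ (g (H.s e) ↔ g (H.t e)))

def IsCut (H : MG Ψ ι) (E K : Finset ι) : Prop := ∃ g : Ψ → Prop, K = H.cutSet E g

/-- `(H, D)` is a dual pair on the edge set `E`: even sets of `D` = cuts of `H`. -/
def Dual (D : MG Φ ι) (H : MG Ψ ι) (E : Finset ι) : Prop :=
  ∀ Z ⊆ E, (D.EvenSet Z ↔ H.IsCut E Z)

def HasDual (D : MG Φ ι) (E : Finset ι) : Prop := ∃ (Ψ : Type) (H : MG Ψ ι), Dual D H E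

/-- No bridges: every edge lies in an even set. -/
def Bridgeless (D : MG Φ ι) (E : Finset ι) : Prop := ∀ e ∈ E, ∃ Z ⊆ E, D.EvenSet Z ∧ e ∈ Z

/-- Three-connected and simple. -/
def TC3 (G : MG Φ ι) (E : Finset ι) : Prop :=
  (∀ e ∈ E, G.s e ≠ G.t e) ∧
  (∀ e ∈ E, ∀ f ∈ E, ∀ u v, G.Joins e u v → G.Joins f u v → e = f) ∧
  (∃ a b c d, a ∈ G.vs E ∧ b ∈ G.vs E ∧ c ∈ G.vs E ∧ d ∈ G.vs E ∧ a ≠ b ∧ a ≠ c ∧ a ≠ d ∧ b ≠ c ∧ b ≠ d ∧ c ≠ d) ∧
  ∀ w₁ w₂ u v, u ∈ G.vs E → v ∈ G.vs E → u ≠ w₁ → v ≠ w₁ → u ≠ w₂ → v ≠ w₂ →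
    G.Conn (G.avoid (G.avoid E w₁) w₂) u v

/-- Re-route the edge `a`: give it the ends `u`, `v`. -/
def reroute (G : MG Φ ι) (a : ι) (u v : Φ) : MG Φ ι :=
  ⟨Function.update G.s a u, Function.update G.t a v⟩

/-- Apply a map to the vertices (identification of vertices). -/
def vmap {Φ' : Type} (G : MG Φ ι) (h : Φ → Φ') : MG Φ' ι := ⟨fun e => h (G.s e), fun e => h (G.t e)⟩

end MG

/-! ## Simple graphs with labels -/

variable {V : Type}

/-- The multigraph of a simple graph, edge type `Sym2 V`. -/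
def toMG (V : Type) : MG V (Sym2 V) := ⟨fun e => (Quot.out e).1, fun e => (Quot.out e).2⟩

/-- `X` separates the ends of `u v`. -/
def Cross (X : Set V) (u v : V) : Prop := ¬ (u ∈ X ↔ v ∈ X)

/-- The graph whose components are the classes: contracted edges (label 0) and real (label 1) crossing edges. -/
def Cls (G : SimpleGraph V) (lab : Sym2 V → ℕ) (X : Set V) : SimpleGraph V where
  Adj u v := G.Adj u v ∧ (lab s(u, v) = 0 ∨ (lab s(u, v) = 1 ∧ Cross X u v))
  symm := by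
    constructor
    rintro u v ⟨h, h'⟩
    refine ⟨h.symm, ?_⟩
    rw [Sym2.eq_swap]
    rcases h' with h' | ⟨h', h''⟩
    · exact Or.inl h'
    · exact Or.inr ⟨h', fun hc => h'' hc.symm⟩
  loopless := by
    constructor
    intro u h
    exact G.loopless.irrefl u h.1

/-- Good cuts of a labelled simple graph. -/
structure GoodCut (G : SimpleGraph V) (lab : Sym2 V → ℕ) (X : Set V) : Prop where
  g0 : ∀ u v, G.Adj u v → lab s(u, v) = 0 → ¬ Cross X u v
  g1 : (G.induce X).Connected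
  g1' : (G.induce Xᶜ).Connected
  g2 : ∀ u v, G.Adj u v → ¬ (Cls G lab X).Adj u v → ¬ (Cls G lab X).Reachable u v
  g3 : ∀ v, (G.induce {w | ¬ (Cls G lab X).Reachable v w}).Connected
  g4 : ∃ a b c d : V, G.Adj a b ∧ G.Adj c d ∧
            ¬ (Cls G lab X).Reachable a b ∧ ¬ (Cls G lab X).Reachable c d ∧
            ¬ (a = c ∧ b = d) ∧ ¬ (a = d ∧ b = c)

/-- Two-connected simple graphs (with at least three vertices). -/
def TwoConn {V : Type} [Fintype V] (G : SimpleGraph V) : Prop :=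
  3 ≤ Fintype.card V ∧ G.Connected ∧ ∀ v, (G.induce {w | w ≠ v}).Connected

/-- Three-connected simple graphs (with at least four vertices). -/
def ThreeConn {V : Type} [Fintype V] (G : SimpleGraph V) : Prop :=
  4 ≤ Fintype.card V ∧ ∀ u v, (G.induce {w | w ≠ u ∧ w ≠ v}).Connected

/-- `R` is a minor of `G` (branch sets). -/
def HasMinor {n : ℕ} (R : SimpleGraph (Fin n)) (G : SimpleGraph V) : Prop :=
  ∃ f : Fin n → Set V, (∀ i, (G.induce (f i)).Connected) ∧ (∀ i j, i ≠ j → Disjoint (f i) (f j)) ∧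
    (∀ i j, R.Adj i j → ∃ u ∈ f i, ∃ v ∈ f j, G.Adj u v)

/-- `K₅` minor, exactly as in the frozen statement. -/
def K5m (G : SimpleGraph V) : Prop :=
  ∃ f : Fin 5 → Set V, (∀ i, (G.induce (f i)).Connected) ∧
          (∀ i j, i ≠ j → Disjoint (f i) (f j)) ∧
          (∀ i j, i ≠ j → ∃ u ∈ f i, ∃ v ∈ f j, G.Adj u v)

/-- The complete bipartite graph `K₃₃` on `Fin 6`. -/
def K33 : SimpleGraph (Fin 6) where
  Adj i j := (i.val < 3 ∧ 3 ≤ j.val) ∨ (j.val < 3 ∧ 3 ≤ i.val)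
  symm := ⟨fun i j h => h.symm⟩
  loopless := ⟨fun i h => by omega⟩

/-- A (combinatorial) dual of a simple graph: a multigraph `D` of faces whose even sets are the cuts of `G`. -/
def IsDualOf {V Φ : Type} [Fintype V] (D : MG Φ (Sym2 V)) (G : SimpleGraph V) : Prop :=
  MG.Dual D (toMG V) G.edgeFinset

def HasDualG {V : Type} [Fintype V] (G : SimpleGraph V) : Prop :=
  ∃ (Φ : Type) (D : MG Φ (Sym2 V)), IsDualOf D G

/-- `a` and `b` are connected in `G - S`. -/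
def ReachOff (G : SimpleGraph V) (S : Set V) (a b : V) : Prop :=
  ∃ (ha : a ∈ Sᶜ) (hb : b ∈ Sᶜ), (G.induce Sᶜ).Reachable ⟨a, ha⟩ ⟨b, hb⟩

/-- `G - {x,y,z}` has at least three components. -/
def ThreeComps (G : SimpleGraph V) (x y z : V) : Prop :=
  x ≠ y ∧ y ≠ z ∧ x ≠ z ∧ ∃ a b c : V, a ∉ ({x, y, z} : Set V) ∧ b ∉ ({x, y, z} : Set V) ∧ c ∉ ({x, y, z} : Set V) ∧
    ¬ ReachOff G {x, y, z} a b ∧ ¬ ReachOff G {x, y, z} b c ∧ ¬ ReachOff G {x, y, z} a c

/-- The property of `V₈` we use: every vertex is cubic with independent neighbourhood and `G - N[w]` is connected. -/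
def V8Prop (G : SimpleGraph V) : Prop :=
  ∀ w, ∃ a b c, a ≠ b ∧ b ≠ c ∧ a ≠ c ∧ (∀ v, G.Adj w v ↔ (v = a ∨ v = b ∨ v = c)) ∧
    ¬ G.Adj a b ∧ ¬ G.Adj b c ∧ ¬ G.Adj a c ∧
    (G.induce {v | v ≠ w ∧ v ≠ a ∧ v ≠ b ∧ v ≠ c}).Connected

end Pool.Agent.Bond
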